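import Mathlib

/-!
# Degrees of zero-cycles

Closed points on the zeros of a polynomial in one variable, and zero-cycles of degree one from
zero-cycles of coprime degrees.
-/

set_option autoImplicit false

namespace Pool.Agent.Q59.ZC

open Polynomial

/-- A property of the fields which contain a ring `ℤ`: to have a point. -/
abbrev PtProp := ∀ (L : Type) [Field L], Prop

/-- There is a zero-cycle of degree `d` over `K`. -/
def Cyc (P : PtProp) (K : Type) [Field K] (d : ℤ) : Prop :=
  ∃ (ι : Type) (_ : Fintype ι) (L : ι → Type) (_ : ∀ i, Field (L i)) (_ : ∀ i, Algebra K (L i))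
    (m : ι → ℤ), (∀ i, FiniteDimensional K (L i)) ∧ (∀ i, P (L i)) ∧
    ∑ i, m i * (Module.finrank K (L i) : ℤ) = d

/-- The same with families indexed by `Fin t`. -/
def ZCt (P : PtProp) (K : Type) [Field K] (d : ℤ) : Prop :=
  ∃ (t : ℕ) (L : Fin t → Type) (_ : ∀ i, Field (L i)) (_ : ∀ i, Algebra K (L i)) (m : Fin t → ℤ),
    (∀ i, FiniteDimensional K (L i)) ∧ (∀ i, P (L i)) ∧
    ∑ i, m i * (Module.finrank K (L i) : ℤ) = d

theorem zc_of_cyc {P : PtProp} {K : Type} [Field K] {d : ℤ} (h : Cyc P K d) : ZCt P K d := by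
  obtain ⟨ι, hι, L, hF, hA, m, h1, h2, h3⟩ := h
  let e := Fintype.equivFin ι
  refine ⟨Fintype.card ι, fun i => L (e.symm i), fun i => hF (e.symm i), fun i => hA (e.symm i),
    fun i => m (e.symm i), fun i => h1 _, fun i => h2 _, ?_⟩
  rw [← h3]
  exact e.symm.sum_comp (fun i => m i * (Module.finrank K (L i) : ℤ))

theorem Cyc.add {P : PtProp} {K : Type} [Field K] {d e : ℤ} (h : Cyc P K d) (h' : Cyc P K e) :
    Cyc P K (d + e) := by
  obtain ⟨ι, hι, L, hF, hA, m, h1, h2, h3⟩ := h
  obtain ⟨κ, hκ, M, hG, hB, n, g1, g2, g3⟩ := h'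
  let F : ι ⊕ κ → Type := fun i => match i with
    | Sum.inl i => L i
    | Sum.inr j => M j
  let iF : ∀ i, Field (F i) := fun i => match i with
    | Sum.inl i => hF i
    | Sum.inr j => hG j
  let iA : ∀ i, Algebra K (F i) := fun i => match i with
    | Sum.inl i => hA i
    | Sum.inr j => hB j
  refine ⟨ι ⊕ κ, inferInstance, F, iF, iA, Sum.elim m n, ?_, ?_, ?_⟩
  · rintro (i | j)
    · exact h1 i
    · exact g1 j
  · rintro (i | j)
    · exact h2 i
    · exact g2 j
  · rw [Fintype.sum_sum_type, ← h3, ← g3]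
    rfl

theorem Cyc.zsmul {P : PtProp} {K : Type} [Field K] {d : ℤ} (h : Cyc P K d) (k : ℤ) :
    Cyc P K (k * d) := by
  obtain ⟨ι, hι, L, hF, hA, m, h1, h2, h3⟩ := h
  refine ⟨ι, hι, L, hF, hA, fun i => k * m i, h1, h2, ?_⟩
  rw [← h3, Finset.mul_sum]
  exact Finset.sum_congr rfl fun i _ => by ring

theorem Cyc.zero {P : PtProp} {K : Type} [Field K] : Cyc P K 0 :=
  ⟨Empty, inferInstance, fun _ => K, fun _ => inferInstance, fun _ => inferInstance, fun _ => 0,
    fun _ => inferInstance, fun i => i.elim, by simp⟩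

theorem Cyc.single {P : PtProp} {K : Type} [Field K] (L : Type) [Field L] [Algebra K L]
    [FiniteDimensional K L] (h : P L) : Cyc P K (Module.finrank K L : ℤ) :=
  ⟨Unit, inferInstance, fun _ => L, fun _ => inferInstance, fun _ => inferInstance, fun _ => 1,
    fun _ => inferInstance, fun _ => h, by simp⟩

/-- zero-cycles of coprime degrees give a zero-cycle of degree one -/
theorem Cyc.one {P : PtProp} {K : Type} [Field K] {a b : ℕ} (ha : Cyc P K a) (hb : Cyc P K b)
    (hab : Nat.Coprime a b) : Cyc P K 1 := by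
  have h := Nat.gcd_eq_gcd_ab a b
  rw [hab.gcd_eq_one] at h
  have h1 := (ha.zsmul (Nat.gcdA a b)).add (hb.zsmul (Nat.gcdB a b))
  have h2 : Nat.gcdA a b * (a : ℤ) + Nat.gcdB a b * (b : ℤ) = 1 := by
    rw [mul_comm, mul_comm (Nat.gcdB a b)]
    exact_mod_cast h.symm
  rwa [h2] at h1

/-- **The zeros of a polynomial of degree at most `m`**, the point at infinity included. -/
theorem cyc_poly {P : PtProp} {K L : Type} [Field K] [Field L] [Algebra K L]
    [FiniteDimensional K L] (p : L[X]) (m : ℕ) (hp : p.natDegree ≤ m)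
    (h1 : ∀ (M : Type) [Field M] [Algebra L M], FiniteDimensional L M → ∀ r : M, aeval r p = 0 → P M)
    (h2 : p.coeff m = 0 → P L) : Cyc P K ((m : ℤ) * (Module.finrank K L : ℤ)) := by
  classical
  by_cases hc : p.coeff m = 0
  · exact (Cyc.single L (h2 hc)).zsmul m
  have hp0 : p ≠ 0 := by
    rintro rfl
    simp at hc
  have hdeg : p.natDegree = m := le_antisymm hp (le_natDegree_of_ne_zero hc)
  have key : ∀ s : Multiset L[X], (∀ q ∈ s, Irreducible q ∧ q ∣ p) →
      Cyc P K ((s.map natDegree).sum * (Module.finrank K L : ℤ)) := by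
    intro s
    induction s using Multiset.induction_on with
    | empty => intro _; simpa using Cyc.zero
    | cons q s ih =>
      intro hs
      have h3 := ih fun q' hq' => hs q' (Multiset.mem_cons_of_mem hq')
      obtain ⟨hq, hqp⟩ := hs q (Multiset.mem_cons_self q s)
      have : Fact (Irreducible q) := ⟨hq⟩
      have : IsScalarTower K L (AdjoinRoot q) := inferInstance
      have : FiniteDimensional L (AdjoinRoot q) := (AdjoinRoot.powerBasis hq.ne_zero).finite
      have : FiniteDimensional K (AdjoinRoot q) := FiniteDimensional.trans K L (AdjoinRoot q)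
      have h4 : Module.finrank L (AdjoinRoot q) = q.natDegree := by
        rw [(AdjoinRoot.powerBasis hq.ne_zero).finrank, AdjoinRoot.powerBasis_dim]
      have h5 : P (AdjoinRoot q) := h1 (AdjoinRoot q) inferInstance (AdjoinRoot.root q) (by
        obtain ⟨w, rfl⟩ := hqp
        rw [map_mul, AdjoinRoot.aeval_eq, AdjoinRoot.mk_self, zero_mul])
      have h6 := Cyc.single (P := P) (K := K) (AdjoinRoot q) h5
      rw [← Module.finrank_mul_finrank K L (AdjoinRoot q), h4] at h6
      have h7 := h6.add h3
      rw [Multiset.map_cons, Multiset.sum_cons]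
      convert h7 using 1
      push_cast
      ring
  have h3 := key (UniqueFactorizationMonoid.normalizedFactors p) (fun q hq =>
    ⟨UniqueFactorizationMonoid.irreducible_of_normalized_factor q hq,
      UniqueFactorizationMonoid.dvd_of_mem_normalizedFactors hq⟩)
  have h4 : ((UniqueFactorizationMonoid.normalizedFactors p).map natDegree).sum = m := by
    rw [← natDegree_multiset_prod _ (UniqueFactorizationMonoid.zero_notMem_normalizedFactors p),
      ← hdeg]
    exact natDegree_eq_of_degree_eq
      (degree_eq_degree_of_associated (UniqueFactorizationMonoid.prod_normalizedFactors hp0))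
  rw [h4] at h3
  exact h3

end Pool.Agent.Q59.ZC
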