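import Pool.Agent.Q59.ZC.Line

/-!
# Zero-cycles over an arbitrary field

The same as in `Pool.Agent.Q59.ZC.Basic` and `Pool.Agent.Q59.ZC.Line` for properties of the algebras
over a field `K` of any characteristic.
-/

set_option autoImplicit false

namespace Pool.Agent.Q59.ZC.Gen

open Polynomial

variable {K : Type} [Field K]

/-- There is a zero-cycle of degree `d` over `K`. -/
def Cyc (P : ∀ (L : Type) [Field L] [Algebra K L], Prop) (d : ℤ) : Prop :=
  ∃ (ι : Type) (_ : Fintype ι) (L : ι → Type) (_ : ∀ i, Field (L i)) (_ : ∀ i, Algebra K (L i))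
    (m : ι → ℤ), (∀ i, FiniteDimensional K (L i)) ∧ (∀ i, P (L i)) ∧
    ∑ i, m i * (Module.finrank K (L i) : ℤ) = d

theorem Cyc.fin {P : ∀ (L : Type) [Field L] [Algebra K L], Prop} {d : ℤ} (h : Cyc P d) :
    ∃ (t : ℕ) (L : Fin t → Type) (_ : ∀ i, Field (L i)) (_ : ∀ i, Algebra K (L i)) (m : Fin t → ℤ),
    (∀ i, FiniteDimensional K (L i)) ∧ (∀ i, P (L i)) ∧
    ∑ i, m i * (Module.finrank K (L i) : ℤ) = d := by
  obtain ⟨ι, hι, L, hF, hA, m, h1, h2, h3⟩ := h
  let e := Fintype.equivFin ι
  refine ⟨Fintype.card ι, fun i => L (e.symm i), fun i => hF (e.symm i), fun i => hA (e.symm i),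
    fun i => m (e.symm i), fun i => h1 _, fun i => h2 _, ?_⟩
  rw [← h3]
  exact e.symm.sum_comp (fun i => m i * (Module.finrank K (L i) : ℤ))

theorem Cyc.add {P : ∀ (L : Type) [Field L] [Algebra K L], Prop} {d e : ℤ} (h : Cyc P d)
    (h' : Cyc P e) : Cyc P (d + e) := by
  obtain ⟨ι, hι, L, hF, hA, m, h1, h2, h3⟩ := h
  obtain ⟨κ, hκ, M, hG, hB, n, g1, g2, g3⟩ := h'
  let F : ι ⊕ κ → Type := fun i => match i with
    | Sum.inl i => L i
    | Sum.inr j => M j
  let iF : ∀ i, Field (F i) := fun i => match i with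
    | Sum.inl i => hF i
    | Sum.inr j => hG j
  let iA : ∀ i, Algebra K (F i) := fun i => match i with
    | Sum.inl i => hA i
    | Sum.inr j => hB j
  refine ⟨ι ⊕ κ, inferInstance, F, iF, iA, Sum.elim m n, ?_, ?_, ?_⟩
  · rintro (i | j)
    · exact h1 i
    · exact g1 j
  · rintro (i | j)
    · exact h2 i
    · exact g2 j
  · rw [Fintype.sum_sum_type, ← h3, ← g3]
    rfl

theorem Cyc.zsmul {P : ∀ (L : Type) [Field L] [Algebra K L], Prop} {d : ℤ} (h : Cyc P d) (k : ℤ) :
    Cyc P (k * d) := by
  obtain ⟨ι, hι, L, hF, hA, m, h1, h2, h3⟩ := h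
  refine ⟨ι, hι, L, hF, hA, fun i => k * m i, h1, h2, ?_⟩
  rw [← h3, Finset.mul_sum]
  exact Finset.sum_congr rfl fun i _ => by ring

theorem Cyc.zero {P : ∀ (L : Type) [Field L] [Algebra K L], Prop} : Cyc P 0 :=
  ⟨Empty, inferInstance, fun _ => K, fun _ => inferInstance, fun _ => inferInstance, fun _ => 0,
    fun _ => inferInstance, fun i => i.elim, by simp⟩

theorem Cyc.single {P : ∀ (L : Type) [Field L] [Algebra K L], Prop} (L : Type) [Field L]
    [Algebra K L] [FiniteDimensional K L] (h : P L) : Cyc P (Module.finrank K L : ℤ) :=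
  ⟨Unit, inferInstance, fun _ => L, fun _ => inferInstance, fun _ => inferInstance, fun _ => 1,
    fun _ => inferInstance, fun _ => h, by simp⟩

/-- zero-cycles of coprime degrees give a zero-cycle of degree one -/
theorem Cyc.one {P : ∀ (L : Type) [Field L] [Algebra K L], Prop} {a b : ℕ} (ha : Cyc P a)
    (hb : Cyc P b) (hab : Nat.Coprime a b) : Cyc P 1 := by
  have h := Nat.gcd_eq_gcd_ab a b
  rw [hab.gcd_eq_one] at h
  have h1 := (ha.zsmul (Nat.gcdA a b)).add (hb.zsmul (Nat.gcdB a b))
  have h2 : Nat.gcdA a b * (a : ℤ) + Nat.gcdB a b * (b : ℤ) = 1 := by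
    rw [mul_comm, mul_comm (Nat.gcdB a b)]
    exact_mod_cast h.symm
  rwa [h2] at h1

/-- **The zeros of a polynomial of degree at most `m`**, the point at infinity included. -/
theorem cyc_poly {P : ∀ (L : Type) [Field L] [Algebra K L], Prop} (p : K[X]) (m : ℕ)
    (hp : p.natDegree ≤ m)
    (h1 : ∀ (M : Type) [Field M] [Algebra K M], FiniteDimensional K M → ∀ r : M, aeval r p = 0 → P M)
    (h2 : p.coeff m = 0 → P K) : Cyc P (m : ℤ) := by
  classical
  by_cases hc : p.coeff m = 0
  · have := (Cyc.single K (h2 hc)).zsmul m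
    rwa [Module.finrank_self, Nat.cast_one, mul_one] at this
  have hp0 : p ≠ 0 := by
    rintro rfl
    simp at hc
  have hdeg : p.natDegree = m := le_antisymm hp (le_natDegree_of_ne_zero hc)
  have key : ∀ s : Multiset K[X], (∀ q ∈ s, Irreducible q ∧ q ∣ p) →
      Cyc P ((s.map natDegree).sum : ℤ) := by
    intro s
    induction s using Multiset.induction_on with
    | empty => intro _; simpa using Cyc.zero
    | cons q s ih =>
      intro hs
      have h3 := ih fun q' hq' => hs q' (Multiset.mem_cons_of_mem hq')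
      obtain ⟨hq, hqp⟩ := hs q (Multiset.mem_cons_self q s)
      haveI : Fact (Irreducible q) := ⟨hq⟩
      have : FiniteDimensional K (AdjoinRoot q) := (AdjoinRoot.powerBasis hq.ne_zero).finite
      have h4 : Module.finrank K (AdjoinRoot q) = q.natDegree := by
        rw [(AdjoinRoot.powerBasis hq.ne_zero).finrank, AdjoinRoot.powerBasis_dim]
      have h5 : P (AdjoinRoot q) := h1 (AdjoinRoot q) inferInstance (AdjoinRoot.root q) (by
        obtain ⟨w, rfl⟩ := hqp
        rw [map_mul, AdjoinRoot.aeval_eq, AdjoinRoot.mk_self, zero_mul])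
      have h6 := Cyc.single (P := P) (K := K) (AdjoinRoot q) h5
      rw [h4] at h6
      have h7 := h6.add h3
      rw [Multiset.map_cons, Multiset.sum_cons]
      rw [Nat.cast_add]
      exact h7
  have h3 := key (UniqueFactorizationMonoid.normalizedFactors p) (fun q hq =>
    ⟨UniqueFactorizationMonoid.irreducible_of_normalized_factor q hq,
      UniqueFactorizationMonoid.dvd_of_mem_normalizedFactors hq⟩)
  have h4 : ((UniqueFactorizationMonoid.normalizedFactors p).map natDegree).sum = m := by
    rw [← natDegree_multiset_prod _ (UniqueFactorizationMonoid.zero_notMem_normalizedFactors p),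
      ← hdeg]
    exact natDegree_eq_of_degree_eq
      (degree_eq_degree_of_associated (UniqueFactorizationMonoid.prod_normalizedFactors hp0))
  rw [h4] at h3
  exact h3

/-- the restriction of `f` to the line `u + T v` -/
noncomputable def line {n : ℕ} (f : MvPolynomial (Fin n) K) (u v : Fin n → K) : K[X] :=
  MvPolynomial.aeval (fun i => C (u i) + C (v i) * X) f

lemma line_deg {n d : ℕ} {f : MvPolynomial (Fin n) K} (hf : f.IsHomogeneous d) (u v : Fin n → K) :
    (line f u v).natDegree ≤ d ∧ (line f u v).coeff d = MvPolynomial.aeval v f := by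
  have hm : ∀ m ∈ f.support, ∑ i, m i = d := by
    intro m hm
    have := hf (MvPolynomial.mem_support_iff.1 hm)
    rw [← this, Finsupp.weight_apply, Finsupp.sum_fintype _ _ (by simp)]
    simp
  unfold line
  rw [MvPolynomial.aeval_def, MvPolynomial.eval₂_eq', MvPolynomial.aeval_def, MvPolynomial.eval₂_eq']
  refine ⟨?_, ?_⟩
  · refine natDegree_sum_le_of_forall_le _ _ fun m hm' => ?_
    have h1 := (Pool.Agent.Q59.ZC.prod_deg u v m Finset.univ).1
    rw [hm m hm'] at h1
    exact (natDegree_C_mul_le _ _).trans h1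
  · rw [finset_sum_coeff]
    refine Finset.sum_congr rfl fun m hm' => ?_
    have h1 := (Pool.Agent.Q59.ZC.prod_deg u v m Finset.univ).2
    rw [hm m hm'] at h1
    rw [Polynomial.algebraMap_eq, coeff_C_mul, h1]
    rfl

lemma line_aeval {n : ℕ} (f : MvPolynomial (Fin n) K) (u v : Fin n → K) {M : Type} [Field M]
    [Algebra K M] (r : M) : aeval r (line f u v) =
      MvPolynomial.aeval (fun i => algebraMap K M (u i) + algebraMap K M (v i) * r) f := by
  unfold line
  rw [MvPolynomial.aeval_def, MvPolynomial.eval₂_eq', map_sum, MvPolynomial.aeval_def,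
    MvPolynomial.eval₂_eq']
  refine Finset.sum_congr rfl fun m _ => ?_
  rw [map_mul, map_prod]
  congr 1
  · simp
  · refine Finset.prod_congr rfl fun i _ => ?_
    simp

/-- The variety `f(x) = 0, ∑ G_i(x) z_0^{m-i} z_1^i = 0` has a point over `L`. -/
def PtF {n m : ℕ} (f : MvPolynomial (Fin n) K) (G : Fin (m + 1) → MvPolynomial (Fin n) K)
    (L : Type) [Field L] [Algebra K L] : Prop :=
  ∃ (x : Fin n → L) (z : Fin 2 → L), x ≠ 0 ∧ z ≠ 0 ∧ MvPolynomial.aeval x f = 0 ∧
    ∑ i : Fin (m + 1), MvPolynomial.aeval x (G i) * z 0 ^ (m - (i : ℕ)) * z 1 ^ (i : ℕ) = 0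

/-- a zero-cycle of degree `m` over a point of `f = 0` -/
theorem cyc_fibre {n m : ℕ} (f : MvPolynomial (Fin n) K) (G : Fin (m + 1) → MvPolynomial (Fin n) K)
    (x : Fin n → K) (hx : x ≠ 0) (hf : MvPolynomial.aeval x f = 0) :
    Cyc (K := K) (fun M _ _ => PtF f G M) (m : ℤ) := by
  have hcoe : ∀ k : ℕ, (∑ i : Fin (m + 1), C (MvPolynomial.aeval x (G i)) * X ^ (i : ℕ) : K[X]).coeff
      k = ∑ i : Fin (m + 1), if k = (i : ℕ) then MvPolynomial.aeval x (G i) else 0 := by
    intro k
    rw [finset_sum_coeff]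
    exact Finset.sum_congr rfl fun i _ => by rw [coeff_C_mul_X_pow]
  refine cyc_poly (∑ i : Fin (m + 1), C (MvPolynomial.aeval x (G i)) * X ^ (i : ℕ)) m ?_ ?_ ?_
  · refine natDegree_sum_le_of_forall_le _ _ fun i _ => ?_
    exact (natDegree_C_mul_X_pow_le _ _).trans (Nat.lt_succ_iff.1 i.2)
  · intro M _ _ _ r hr
    have hinj := (algebraMap K M).injective
    refine ⟨fun i => algebraMap K M (x i), ![1, r], ?_, ?_, ?_, ?_⟩
    · intro h
      apply hx
      funext i
      have := congrFun h i
      exact hinj (by simpa using this)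
    · intro h
      simpa using congrFun h 0
    · have := MvPolynomial.aeval_algebraMap_apply M x f
      have h2 : MvPolynomial.aeval (⇑(algebraMap K M) ∘ x) f = 0 := by
        rw [this, hf, map_zero]
      exact h2
    · have h3 : ∀ i, MvPolynomial.aeval (fun j => algebraMap K M (x j)) (G i) =
          algebraMap K M (MvPolynomial.aeval x (G i)) := fun i =>
        MvPolynomial.aeval_algebraMap_apply M x (G i)
      rw [map_sum] at hr
      rw [← hr]
      refine Finset.sum_congr rfl fun i _ => ?_
      rw [h3, map_mul, map_pow, aeval_X, aeval_C]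
      simp
  · intro h
    refine ⟨x, ![0, 1], hx, ?_, hf, ?_⟩
    · intro h
      simpa using congrFun h 1
    · rw [Pool.Agent.Q59.ZC.sum_at_top (fun i => MvPolynomial.aeval x (G i)) _ (by simp) (by simp)]
      rw [hcoe, Finset.sum_eq_single (Fin.last m)] at h
      · simpa using h
      · intro i _ hi
        have h2 : m ≠ (i : ℕ) := fun h => hi (Fin.ext h.symm)
        rw [if_neg h2]
      · simp

/-- a zero-cycle of degree `d` if `G 0` has a linear factor -/
theorem cyc_section {n m d : ℕ} (hn : 2 ≤ n) {f : MvPolynomial (Fin (n + 1)) K}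
    (hf : f.IsHomogeneous d) (G : Fin (m + 1) → MvPolynomial (Fin (n + 1)) K)
    {c : Fin (n + 1) → K} (hc : c ≠ 0)
    (hG : (∑ i, MvPolynomial.C (c i) * MvPolynomial.X i) ∣ G 0) :
    Cyc (K := K) (fun M _ _ => PtF f G M) (d : ℤ) := by
  classical
  obtain ⟨k, hk⟩ := Function.ne_iff.1 hc
  rw [Pi.zero_apply] at hk
  have hcard : 1 < (Finset.univ.erase k : Finset (Fin (n + 1))).card := by
    rw [Finset.card_erase_of_mem (Finset.mem_univ k), Finset.card_univ, Fintype.card_fin]
    omega
  obtain ⟨i, hi, j, hj, hij⟩ := Finset.one_lt_card.1 hcard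
  have hik : i ≠ k := Finset.ne_of_mem_erase hi
  have hjk : j ≠ k := Finset.ne_of_mem_erase hj
  let u : Fin (n + 1) → K := fun l => if l = i then c k else if l = k then -c i else 0
  let v : Fin (n + 1) → K := fun l => if l = j then c k else if l = k then -c j else 0
  have hlin : ∀ (M : Type) [Field M] [Algebra K M] (s r : M),
      ∑ l, algebraMap K M (c l) * (algebraMap K M (u l) * s + algebraMap K M (v l) * r) = 0 := by
    intro M _ _ s r
    have e1 : ∑ l, algebraMap K M (c l) * algebraMap K M (u l) = 0 := by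
      rw [Finset.sum_eq_add_of_mem i k (Finset.mem_univ _) (Finset.mem_univ _) hik]
      · simp only [u, if_true, if_neg hik.symm]
        simp
        ring
      · intro l _ hl
        simp only [u, if_neg hl.1, if_neg hl.2]
        simp
    have e2 : ∑ l, algebraMap K M (c l) * algebraMap K M (v l) = 0 := by
      rw [Finset.sum_eq_add_of_mem j k (Finset.mem_univ _) (Finset.mem_univ _) hjk]
      · simp only [v, if_true, if_neg hjk.symm]
        simp
        ring
      · intro l _ hl
        simp only [v, if_neg hl.1, if_neg hl.2]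
        simp
    calc ∑ l, algebraMap K M (c l) * (algebraMap K M (u l) * s + algebraMap K M (v l) * r)
        = (∑ l, algebraMap K M (c l) * algebraMap K M (u l)) * s +
          (∑ l, algebraMap K M (c l) * algebraMap K M (v l)) * r := by
          rw [Finset.sum_mul, Finset.sum_mul, ← Finset.sum_add_distrib]
          exact Finset.sum_congr rfl fun l _ => by ring
      _ = 0 := by rw [e1, e2]; ring
  have hzero : ∀ (M : Type) [Field M] [Algebra K M] (x : Fin (n + 1) → M),
      ∑ l, algebraMap K M (c l) * x l = 0 → MvPolynomial.aeval x (G 0) = 0 := by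
    intro M _ _ x hx
    obtain ⟨w, hw⟩ := hG
    rw [hw, map_mul]
    have : MvPolynomial.aeval x (∑ i, MvPolynomial.C (c i) * MvPolynomial.X i :
        MvPolynomial (Fin (n + 1)) K) = 0 := by
      rw [map_sum, ← hx]
      exact Finset.sum_congr rfl fun l _ => by simp
    rw [this, zero_mul]
  have key : ∀ (M : Type) [Field M] [Algebra K M] (s r : M), (s ≠ 0 ∨ r ≠ 0) →
      MvPolynomial.aeval (fun l => algebraMap K M (u l) * s + algebraMap K M (v l) * r) f = 0 →
      PtF f G M := by
    intro M _ _ s r hsr h0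
    refine ⟨_, ![1, 0], ?_, ?_, h0, ?_⟩
    · intro h
      have hkM : algebraMap K M (c k) ≠ 0 := by
        rw [Ne, map_eq_zero_iff _ (algebraMap K M).injective]
        exact hk
      rcases hsr with h1 | h1
      · have h2 := congrFun h i
        simp only [u, v, if_true, if_neg hij, if_neg hik, Pi.zero_apply] at h2
        rw [map_zero, zero_mul, add_zero] at h2
        exact (mul_ne_zero hkM h1) h2
      · have h2 := congrFun h j
        simp only [u, v, if_true, if_neg hij.symm, if_neg hjk, Pi.zero_apply] at h2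
        rw [map_zero, zero_mul, zero_add] at h2
        exact (mul_ne_zero hkM h1) h2
    · intro h
      simpa using congrFun h 0
    · rw [Pool.Agent.Q59.ZC.sum_at_zero (fun i => MvPolynomial.aeval _ (G i)) _ (by simp) (by simp)]
      exact hzero M _ (hlin M s r)
  have h := cyc_poly (P := fun M _ _ => PtF f G M) (K := K) (line f u v) d
    (line_deg hf u v).1 ?_ ?_
  · exact h
  · intro M _ _ _ r hr
    apply key M 1 r (Or.inl one_ne_zero)
    rw [line_aeval] at hr
    simpa using hr
  · intro h0
    rw [(line_deg hf u v).2] at h0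
    apply key K 0 1 (Or.inr one_ne_zero)
    simpa using h0

/-- **A rational point of a hypersurface gives zero-cycles of degree one on all the families of its
sections** of degree prime to the degree of the hypersurface. -/
theorem zc_family {n m d : ℕ} (hn : 2 ≤ n) {f : MvPolynomial (Fin (n + 1)) K}
    (hf : f.IsHomogeneous d) (G : Fin (m + 1) → MvPolynomial (Fin (n + 1)) K)
    {c : Fin (n + 1) → K} (hc : c ≠ 0)
    (hG : (∑ i, MvPolynomial.C (c i) * MvPolynomial.X i) ∣ G 0) (hm : Nat.Coprime m d)
    (x : Fin (n + 1) → K) (hx : x ≠ 0) (hfx : MvPolynomial.aeval x f = 0) :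
    ∃ (t : ℕ) (L : Fin t → Type) (_ : ∀ i, Field (L i)) (_ : ∀ i, Algebra K (L i)) (k : Fin t → ℤ),
    (∀ i, FiniteDimensional K (L i)) ∧ (∀ i, PtF f G (L i)) ∧
    ∑ i, k i * (Module.finrank K (L i) : ℤ) = 1 :=
  ((cyc_fibre f G x hx hfx).one (cyc_section hn hf G hc hG) hm).fin

end Pool.Agent.Q59.ZC.Gen
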