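import Pool.Agent.Q59.ZC.Basic

/-!
# The restriction of a form to a line, and the zero-cycles of families of sections
-/

set_option autoImplicit false

namespace Pool.Agent.Q59.ZC

open Polynomial

section line
variable {n : ℕ} {L : Type} [Field L]

/-- the restriction of `f` to the line `u + T v` -/
noncomputable def line (f : MvPolynomial (Fin n) ℤ) (u v : Fin n → L) : L[X] :=
  MvPolynomial.aeval (fun i => C (u i) + C (v i) * X) f

lemma factor_deg (u v : L) (k : ℕ) : ((C u + C v * X) ^ k).natDegree ≤ k ∧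
    ((C u + C v * X) ^ k).coeff k = v ^ k := by
  have h1 : (C u + C v * X : L[X]).natDegree ≤ 1 := by
    refine (natDegree_add_le _ _).trans ?_
    rw [natDegree_C]
    exact max_le (by norm_num) ((natDegree_C_mul_le _ _).trans natDegree_X_le)
  refine ⟨?_, ?_⟩
  · refine natDegree_pow_le.trans ?_
    nlinarith
  · have h2 := coeff_pow_of_natDegree_le (m := k) h1
    rw [mul_one] at h2
    rw [h2]
    simp

lemma prod_deg (u v : Fin n → L) (m : Fin n →₀ ℕ) (s : Finset (Fin n)) :
    (∏ i ∈ s, (C (u i) + C (v i) * X) ^ m i).natDegree ≤ ∑ i ∈ s, m i ∧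
    (∏ i ∈ s, (C (u i) + C (v i) * X) ^ m i).coeff (∑ i ∈ s, m i) = ∏ i ∈ s, v i ^ m i := by
  classical
  induction s using Finset.induction_on with
  | empty => simp
  | insert a s ha ih =>
    rw [Finset.prod_insert ha, Finset.sum_insert ha, Finset.prod_insert ha]
    obtain ⟨h1, h2⟩ := factor_deg (u a) (v a) (m a)
    refine ⟨natDegree_mul_le_of_le h1 ih.1, ?_⟩
    rw [coeff_mul_add_eq_of_natDegree_le h1 ih.1, h2, ih.2]

lemma line_deg {f : MvPolynomial (Fin n) ℤ} {d : ℕ} (hf : f.IsHomogeneous d) (u v : Fin n → L) :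
    (line f u v).natDegree ≤ d ∧ (line f u v).coeff d = MvPolynomial.aeval v f := by
  have hm : ∀ m ∈ f.support, ∑ i, m i = d := by
    intro m hm
    have := hf (MvPolynomial.mem_support_iff.1 hm)
    rw [← this, Finsupp.weight_apply, Finsupp.sum_fintype _ _ (by simp)]
    simp
  unfold line
  rw [MvPolynomial.aeval_def, MvPolynomial.eval₂_eq', MvPolynomial.aeval_def, MvPolynomial.eval₂_eq']
  refine ⟨?_, ?_⟩
  · refine natDegree_sum_le_of_forall_le _ _ fun m hm' => ?_
    have h1 := (prod_deg u v m Finset.univ).1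
    rw [hm m hm'] at h1
    have h2 : (algebraMap ℤ L[X] (MvPolynomial.coeff m f)) = C (algebraMap ℤ L (MvPolynomial.coeff m f)) := by
      simp
    rw [h2]
    exact (natDegree_C_mul_le _ _).trans h1
  · rw [finset_sum_coeff]
    refine Finset.sum_congr rfl fun m hm' => ?_
    have h1 := (prod_deg u v m Finset.univ).2
    rw [hm m hm'] at h1
    have h2 : (algebraMap ℤ L[X] (MvPolynomial.coeff m f)) = C (algebraMap ℤ L (MvPolynomial.coeff m f)) := by
      simp
    rw [h2, coeff_C_mul, h1]

lemma line_aeval (f : MvPolynomial (Fin n) ℤ) (u v : Fin n → L) {M : Type} [Field M] [Algebra L M]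
    (r : M) : aeval r (line f u v) =
      MvPolynomial.aeval (fun i => algebraMap L M (u i) + algebraMap L M (v i) * r) f := by
  unfold line
  rw [MvPolynomial.aeval_def, MvPolynomial.eval₂_eq', map_sum, MvPolynomial.aeval_def,
    MvPolynomial.eval₂_eq']
  refine Finset.sum_congr rfl fun m _ => ?_
  rw [map_mul, map_prod]
  congr 1
  · simp
  · refine Finset.prod_congr rfl fun i _ => ?_
    simp

end line

/-- The family `∑ G_i(x) z_0^{m-i} z_1^i = 0` of sections of `f = 0` has a point over `L`. -/
def PtF {n m : ℕ} (f : MvPolynomial (Fin n) ℤ) (G : Fin (m + 1) → MvPolynomial (Fin n) ℤ)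
    (L : Type) [Field L] : Prop :=
  ∃ (x : Fin n → L) (z : Fin 2 → L), x ≠ 0 ∧ z ≠ 0 ∧ MvPolynomial.aeval x f = 0 ∧
    ∑ i : Fin (m + 1), MvPolynomial.aeval x (G i) * z 0 ^ (m - (i : ℕ)) * z 1 ^ (i : ℕ) = 0

lemma sum_at_zero {L : Type} [Field L] {m : ℕ} (c : Fin (m + 1) → L) (z : Fin 2 → L) (h0 : z 0 = 1)
    (h1 : z 1 = 0) : ∑ i : Fin (m + 1), c i * z 0 ^ (m - (i : ℕ)) * z 1 ^ (i : ℕ) = c 0 := by
  rw [Finset.sum_eq_single 0]
  · simp [h0]
  · intro i _ hi
    have : (i : ℕ) ≠ 0 := fun h => hi (Fin.ext h)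
    rw [h1, zero_pow this, mul_zero]
  · simp

lemma sum_at_top {L : Type} [Field L] {m : ℕ} (c : Fin (m + 1) → L) (z : Fin 2 → L) (h0 : z 0 = 0)
    (h1 : z 1 = 1) : ∑ i : Fin (m + 1), c i * z 0 ^ (m - (i : ℕ)) * z 1 ^ (i : ℕ) =
      c (Fin.last m) := by
  rw [Finset.sum_eq_single (Fin.last m)]
  · simp [h1]
  · intro i _ hi
    have h2 : (i : ℕ) < m := lt_of_le_of_ne (Nat.lt_succ_iff.1 i.2) fun h => hi (Fin.ext h)
    rw [h0, zero_pow (by omega), mul_zero, zero_mul]
  · simp

/-- a zero-cycle of degree `m [L : K]` over a point of `f = 0` over `L` -/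
theorem cyc_fibre {n m : ℕ} (f : MvPolynomial (Fin n) ℤ) (G : Fin (m + 1) → MvPolynomial (Fin n) ℤ)
    {K L : Type} [Field K] [Field L] [Algebra K L] [FiniteDimensional K L] (x : Fin n → L)
    (hx : x ≠ 0) (hf : MvPolynomial.aeval x f = 0) :
    Cyc (fun M _ => PtF f G M) K ((m : ℤ) * (Module.finrank K L : ℤ)) := by
  have hcoe : ∀ k : ℕ, (∑ i : Fin (m + 1), C (MvPolynomial.aeval x (G i)) * X ^ (i : ℕ) : L[X]).coeff
      k = ∑ i : Fin (m + 1), if k = (i : ℕ) then MvPolynomial.aeval x (G i) else 0 := by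
    intro k
    rw [finset_sum_coeff]
    exact Finset.sum_congr rfl fun i _ => by rw [coeff_C_mul_X_pow]
  refine cyc_poly (∑ i : Fin (m + 1), C (MvPolynomial.aeval x (G i)) * X ^ (i : ℕ)) m ?_ ?_ ?_
  · refine natDegree_sum_le_of_forall_le _ _ fun i _ => ?_
    exact (natDegree_C_mul_X_pow_le _ _).trans (Nat.lt_succ_iff.1 i.2)
  · intro M _ _ _ r hr
    have hinj := (algebraMap L M).injective
    refine ⟨fun i => algebraMap L M (x i), ![1, r], ?_, ?_, ?_, ?_⟩
    · intro h
      apply hx
      funext i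
      have := congrFun h i
      exact hinj (by simpa using this)
    · intro h
      simpa using congrFun h 0
    · have := MvPolynomial.aeval_algebraMap_apply M x f
      have h2 : MvPolynomial.aeval (⇑(algebraMap L M) ∘ x) f = 0 := by
        rw [this, hf, map_zero]
      exact h2
    · have h3 : ∀ i, MvPolynomial.aeval (fun j => algebraMap L M (x j)) (G i) =
          algebraMap L M (MvPolynomial.aeval x (G i)) := fun i =>
        MvPolynomial.aeval_algebraMap_apply M x (G i)
      rw [map_sum] at hr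
      rw [← hr]
      refine Finset.sum_congr rfl fun i _ => ?_
      rw [h3, map_mul, map_pow, aeval_X, aeval_C]
      simp
  · intro h
    refine ⟨x, ![0, 1], hx, ?_, hf, ?_⟩
    · intro h
      simpa using congrFun h 1
    · rw [sum_at_top (fun i => MvPolynomial.aeval x (G i)) _ (by simp) (by simp)]
      rw [hcoe, Finset.sum_eq_single (Fin.last m)] at h
      · simpa using h
      · intro i _ hi
        have h2 : m ≠ (i : ℕ) := fun h => hi (Fin.ext h.symm)
        rw [if_neg h2]
      · simp

/-- a zero-cycle of degree `d` if `G 0` has a linear factor -/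
theorem cyc_section {n m d : ℕ} (hn : 2 ≤ n) {f : MvPolynomial (Fin (n + 1)) ℤ}
    (hf : f.IsHomogeneous d) (G : Fin (m + 1) → MvPolynomial (Fin (n + 1)) ℤ)
    {c : Fin (n + 1) → ℤ} (hc : c ≠ 0)
    (hG : (∑ i, MvPolynomial.C (c i) * MvPolynomial.X i) ∣ G 0) (K : Type) [Field K] [CharZero K] :
    Cyc (fun M _ => PtF f G M) K (d : ℤ) := by
  classical
  obtain ⟨k, hk⟩ := Function.ne_iff.1 hc
  rw [Pi.zero_apply] at hk
  have hcard : 1 < (Finset.univ.erase k : Finset (Fin (n + 1))).card := by
    rw [Finset.card_erase_of_mem (Finset.mem_univ k), Finset.card_univ, Fintype.card_fin]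
    omega
  obtain ⟨i, hi, j, hj, hij⟩ := Finset.one_lt_card.1 hcard
  have hik : i ≠ k := Finset.ne_of_mem_erase hi
  have hjk : j ≠ k := Finset.ne_of_mem_erase hj
  let u : Fin (n + 1) → K := fun l => if l = i then (c k : K) else if l = k then -(c i : K) else 0
  let v : Fin (n + 1) → K := fun l => if l = j then (c k : K) else if l = k then -(c j : K) else 0
  have hlin : ∀ (M : Type) [Field M] [Algebra K M] (s r : M),
      ∑ l, (c l : M) * (algebraMap K M (u l) * s + algebraMap K M (v l) * r) = 0 := by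
    intro M _ _ s r
    have e1 : ∑ l, (c l : M) * algebraMap K M (u l) = 0 := by
      rw [Finset.sum_eq_add_of_mem i k (Finset.mem_univ _) (Finset.mem_univ _) hik]
      · simp only [u, if_true, if_neg hik.symm]
        simp
        ring
      · intro l _ hl
        simp only [u, if_neg hl.1, if_neg hl.2]
        simp
    have e2 : ∑ l, (c l : M) * algebraMap K M (v l) = 0 := by
      rw [Finset.sum_eq_add_of_mem j k (Finset.mem_univ _) (Finset.mem_univ _) hjk]
      · simp only [v, if_true, if_neg hjk.symm]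
        simp
        ring
      · intro l _ hl
        simp only [v, if_neg hl.1, if_neg hl.2]
        simp
    calc ∑ l, (c l : M) * (algebraMap K M (u l) * s + algebraMap K M (v l) * r)
        = (∑ l, (c l : M) * algebraMap K M (u l)) * s +
          (∑ l, (c l : M) * algebraMap K M (v l)) * r := by
          rw [Finset.sum_mul, Finset.sum_mul, ← Finset.sum_add_distrib]
          exact Finset.sum_congr rfl fun l _ => by ring
      _ = 0 := by rw [e1, e2]; ring
  have hzero : ∀ (M : Type) [Field M] (x : Fin (n + 1) → M), ∑ l, (c l : M) * x l = 0 →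
      MvPolynomial.aeval x (G 0) = 0 := by
    intro M _ x hx
    obtain ⟨w, hw⟩ := hG
    rw [hw, map_mul]
    have : MvPolynomial.aeval x (∑ i, MvPolynomial.C (c i) * MvPolynomial.X i :
        MvPolynomial (Fin (n + 1)) ℤ) = 0 := by
      rw [map_sum, ← hx]
      exact Finset.sum_congr rfl fun l _ => by simp
    rw [this, zero_mul]
  have key : ∀ (M : Type) [Field M] [CharZero M] [Algebra K M] (s r : M), (s ≠ 0 ∨ r ≠ 0) →
      MvPolynomial.aeval (fun l => algebraMap K M (u l) * s + algebraMap K M (v l) * r) f = 0 →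
      PtF f G M := by
    intro M _ _ _ s r hsr h0
    refine ⟨_, ![1, 0], ?_, ?_, h0, ?_⟩
    · intro h
      have hkM : (c k : M) ≠ 0 := by exact_mod_cast hk
      rcases hsr with h1 | h1
      · have h2 := congrFun h i
        simp only [u, v, if_true, if_neg hij, if_neg hik, Pi.zero_apply] at h2
        simp at h2
        exact h2.elim (fun h3 => hk h3) h1
      · have h2 := congrFun h j
        simp only [u, v, if_true, if_neg hij.symm, if_neg hjk, Pi.zero_apply] at h2
        simp at h2
        exact h2.elim (fun h3 => hk h3) h1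
    · intro h
      simpa using congrFun h 0
    · rw [sum_at_zero (fun i => MvPolynomial.aeval _ (G i)) _ (by simp) (by simp)]
      exact hzero M _ (hlin M s r)
  have h := cyc_poly (P := fun M _ => PtF f G M) (K := K) (L := K) (line f u v) d
    (line_deg hf u v).1 ?_ ?_
  · simpa using h
  · intro M _ _ _ r hr
    have : CharZero M := charZero_of_injective_algebraMap (algebraMap K M).injective
    apply key M 1 r (Or.inl one_ne_zero)
    rw [line_aeval] at hr
    simpa using hr
  · intro h0
    rw [(line_deg hf u v).2] at h0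
    apply key K 0 1 (Or.inr one_ne_zero)
    simpa using h0

end Pool.Agent.Q59.ZC
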