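import Pool.Agent.Q59.ZC.Line

/-!
# Zero-cycles on the zeros of a binary form
-/

set_option autoImplicit false

namespace Pool.Agent.Q59.ZC

open Polynomial

/-- **The zeros of a binary form of degree `m` over `L`** give a zero-cycle of degree `m [L : K]`. -/
theorem cyc_binary {P : PtProp} {K L : Type} [Field K] [Field L] [Algebra K L]
    [FiniteDimensional K L] {m : ℕ} (c : Fin (m + 1) → L)
    (h : ∀ (M : Type) [Field M] [Algebra L M], FiniteDimensional L M → ∀ z : Fin 2 → M, z ≠ 0 →
      ∑ i : Fin (m + 1), algebraMap L M (c i) * z 0 ^ (m - (i : ℕ)) * z 1 ^ (i : ℕ) = 0 → P M) :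
    Cyc P K ((m : ℤ) * (Module.finrank K L : ℤ)) := by
  have hcoe : ∀ k : ℕ, (∑ i : Fin (m + 1), C (c i) * X ^ (i : ℕ) : L[X]).coeff
      k = ∑ i : Fin (m + 1), if k = (i : ℕ) then c i else 0 := by
    intro k
    rw [finset_sum_coeff]
    exact Finset.sum_congr rfl fun i _ => by rw [coeff_C_mul_X_pow]
  refine cyc_poly (∑ i : Fin (m + 1), C (c i) * X ^ (i : ℕ)) m ?_ ?_ ?_
  · refine natDegree_sum_le_of_forall_le _ _ fun i _ => ?_
    exact (natDegree_C_mul_X_pow_le _ _).trans (Nat.lt_succ_iff.1 i.2)
  · intro M _ _ _ r hr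
    refine h M inferInstance ![1, r] ?_ ?_
    · intro h
      simpa using congrFun h 0
    · rw [map_sum] at hr
      rw [← hr]
      refine Finset.sum_congr rfl fun i _ => ?_
      rw [map_mul, map_pow, aeval_X, aeval_C]
      simp
  · intro h'
    refine h L inferInstance ![0, 1] ?_ ?_
    · intro h
      simpa using congrFun h 1
    · rw [sum_at_top (fun i => algebraMap L L (c i)) _ (by simp) (by simp)]
      rw [hcoe, Finset.sum_eq_single (Fin.last m)] at h'
      · simpa using h'
      · intro i _ hi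
        have h2 : m ≠ (i : ℕ) := fun h => hi (Fin.ext h.symm)
        rw [if_neg h2]
      · simp

/-- the square roots of an element -/
theorem cyc_sqrt {P : PtProp} {K : Type} [Field K] (b : K)
    (h : ∀ (M : Type) [Field M] [Algebra K M], FiniteDimensional K M → ∀ w : M,
      w ^ 2 = algebraMap K M b → P M) : Cyc P K 2 := by
  have h1 := cyc_poly (P := P) (K := K) (L := K) (X ^ 2 - C b) 2 ?_ ?_ ?_
  · simpa using h1
  · rw [natDegree_X_pow_sub_C]
  · intro M _ _ _ r hr
    refine h M inferInstance r ?_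
    rw [map_sub, map_pow, aeval_X, aeval_C, sub_eq_zero] at hr
    exact hr
  · intro h2
    exfalso
    rw [coeff_sub, coeff_X_pow, if_pos rfl, coeff_C, if_neg (by norm_num)] at h2
    simp at h2

end Pool.Agent.Q59.ZC
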